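import Pool.Agent.Y317.SK.Ibp

/-!
# Project SK: S_FORM
-/

open Set Filter Topology MeasureTheory Metric

set_option autoImplicit false

namespace Pool.Agent.Y317.SK

open Pool.Agent.Y5 (E3)
open Pool.Agent.Y303.SK

theorem csD {v : E3 → E3} (h : CS univ v) (j : Fin 3) :
    ContDiff ℝ (⊤ : ℕ∞) (fun y => fderiv ℝ v y (cv j)) :=
  (h.smooth.fderiv_right (m := (⊤ : ℕ∞)) (by simp)).clm_apply contDiff_const

/-- the Laplacian -/
noncomputable def lapl (v : E3 → E3) (x : E3) : E3 :=
  ∑ j : Fin 3, fderiv ℝ (fun y => fderiv ℝ v y (cv j)) x (cv j)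

theorem csDs {v : E3 → E3} {x : E3} (hx : x ∉ tsupport v) (j : Fin 3) :
    fderiv ℝ (fun y => fderiv ℝ v y (cv j)) x = 0 := by
  have h1 : (fun y => fderiv ℝ v y (cv j)) =ᶠ[𝓝 x] fun _ => 0 := by
    have h2 : (tsupport v)ᶜ ∈ 𝓝 x := (isClosed_tsupport v).isOpen_compl.mem_nhds hx
    filter_upwards [h2] with y hy
    rw [cs0f hy]
    rfl
  rw [h1.fderiv_eq]
  simp

theorem lapl_cont {v : E3 → E3} (h : CS univ v) : Continuous (lapl v) := by
  unfold lapl
  refine continuous_finsetSum _ fun j _ => ?_
  have h1 : Continuous (fderiv ℝ (fun y => fderiv ℝ v y (cv j))) :=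
    (csD h j).continuous_fderiv (by simp)
  fun_prop

theorem lapl_supp {v : E3 → E3} (h : CS univ v) : HasCompactSupport (lapl v) := by
  refine HasCompactSupport.intro (K := tsupport v) h.cpt fun x hx => ?_
  unfold lapl
  refine Finset.sum_eq_zero fun j _ => ?_
  rw [csDs hx]
  rfl

theorem dirf_lapl {f v : E3 → E3} (hf : CS univ f) (hv : ContDiff ℝ 1 v) :
    dirf f v = -ipr (lapl f) v := by
  have hff := csf hf
  have hvf := cs1 hv
  have hvc := hv.continuous
  have h1 : ∀ j : Fin 3, Continuous (fderiv ℝ (fun y => fderiv ℝ f y (cv j))) := fun j =>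
    (csD hf j).continuous_fderiv (by simp)
  have hi : ∀ j : Fin 3, Integrable
      (fun x => inner ℝ (fderiv ℝ f x (cv j)) (fderiv ℝ v x (cv j))) := by
    intro j
    refine intg (K := tsupport f) (by fun_prop) hf.cpt fun x hx => ?_
    rw [cs0f hx]; simp
  have hi' : ∀ j : Fin 3, Integrable
      (fun x => inner ℝ (fderiv ℝ (fun y => fderiv ℝ f y (cv j)) x (cv j)) (v x)) := by
    intro j
    have := h1 j
    refine intg (K := tsupport f) (by fun_prop) hf.cpt fun x hx => ?_
    rw [csDs hx]; simp
  have h2 : ∀ j : Fin 3, ∫ x, inner ℝ (fderiv ℝ f x (cv j)) (fderiv ℝ v x (cv j)) =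
      - ∫ x, inner ℝ (fderiv ℝ (fun y => fderiv ℝ f y (cv j)) x (cv j)) (v x) := by
    intro j
    refine integral_bilinear_fderiv_right_eq_neg_left_of_integrable (μ := (volume : Measure E3))
      (f := fun y => fderiv ℝ f y (cv j)) (g := v) (v := cv j) (B := innerSL ℝ)
      (hi' j) (hi j) ?_ ?_ ?_
    · refine intg (K := tsupport f) (by fun_prop) hf.cpt fun x hx => ?_
      rw [cs0f hx]; simp
    · intro x _
      exact (csD hf j).differentiable (by simp) x
    · intro x _
      exact (hv.differentiable (by simp)) x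
  unfold dirf ipr lapl
  rw [integral_finsetSum _ fun i _ => hi i]
  simp only [h2, sum_inner]
  rw [integral_finsetSum _ fun i _ => hi' i, Finset.sum_neg_distrib]

theorem t_FORM : S_FORM := by
  refine ⟨fun u v w hu hv hw => adv_anti hu (csc1 hv) (csc1 hw),
    fun v w => ⟨ipr_comm v w, dirf_comm v w⟩, ?_⟩
  intro I e he ho
  classical
  have hfs : ∀ (s : Finset I) (z : I → ℝ), ipr (fs e s z) (fs e s z) = ∑ a ∈ s, z a ^ 2 := by
    intro s z
    rw [ipr_fs he s z (csc (fs_cs he s z))]
    refine Finset.sum_congr rfl fun a ha => ?_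
    rw [ipr_comm, ipr_fs he s z (csc (he a)), Finset.sum_eq_single a]
    · rw [(ho a a).1 rfl]
      ring
    · intro b _ hb
      rw [(ho b a).2 hb, mul_zero]
    · intro h
      exact absurd ha h
  refine ⟨fun s z => ⟨fs_cs he s z, hfs s z, ?_, fun f hf => ipr_fs he s z (csc hf)⟩, ?_⟩
  · change dirf (fs e s z) (fs e s z) = _
    rw [dirf_fs he s z (csc1 (fs_cs he s z))]
    refine Finset.sum_congr rfl fun a ha => ?_
    rw [dirf_comm, dirf_fs he s z (csc1 (he a)), Finset.mul_sum]
    refine Finset.sum_congr rfl fun b hb => ?_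
    rw [dirf_comm (e b)]
    ring
  · intro i
    obtain ⟨X1, hX1⟩ := ((he i).cpt.fderiv ℝ).exists_bound_of_continuous (csf (he i))
    have hX1' : 0 ≤ X1 := (norm_nonneg _).trans (hX1 0)
    have hX2 : 0 ≤ √(ipr (lapl (e i)) (lapl (e i))) := Real.sqrt_nonneg _
    refine ⟨X1 + √(ipr (lapl (e i)) (lapl (e i))), fun s z w => ?_, fun s z => ?_⟩
    · have h1 : ∑ a ∈ s, ∑ b ∈ s, -adv (e a) (e b) (e i) * z a * w b =
          adv (fs e s z) (e i) (fs e s w) := by
        rw [adv_anti (fs_cs he s z) (csc1 (he i)) (csc1 (fs_cs he s w)),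
          adv_fs he s z w (csc (he i))]
        simp only [neg_mul, Finset.sum_neg_distrib]
      rw [h1, ← hfs s z, ← hfs s w]
      have hc : Continuous (fun x => fderiv ℝ (e i) x (fs e s z x)) := by
        have h2 := csf (he i)
        have h3 := csc (fs_cs he s z)
        fun_prop
      have hcs : HasCompactSupport (fun x => fderiv ℝ (e i) x (fs e s z x)) := by
        refine HasCompactSupport.intro (K := tsupport (e i)) (he i).cpt fun x hx => ?_
        rw [cs0f hx]
        rfl
      have h2 := csq hc hcs (csc (fs_cs he s w)) (fs_cs he s w).cpt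
      refine h2.trans ?_
      rw [← mul_assoc]
      refine mul_le_mul_of_nonneg_right ?_ (Real.sqrt_nonneg _)
      have h3 : √(ipr (fun x => fderiv ℝ (e i) x (fs e s z x))
          (fun x => fderiv ℝ (e i) x (fs e s z x))) ≤ X1 * √(ipr (fs e s z) (fs e s z)) := by
        rw [← Real.sqrt_sq hX1', ← Real.sqrt_mul (sq_nonneg X1)]
        refine Real.sqrt_le_sqrt ?_
        unfold ipr
        rw [← integral_const_mul]
        refine integral_mono ?_ ?_ fun x => ?_
        · refine intg (K := tsupport (e i)) (by fun_prop) (he i).cpt fun x hx => ?_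
          simp only [cs0f hx]
          simp
        · have h3 := csc (fs_cs he s z)
          refine (intg (K := tsupport (fs e s z)) (by fun_prop) (fs_cs he s z).cpt
            fun x hx => ?_).const_mul _
          rw [cs0 hx]; simp
        · simp only [real_inner_self_eq_norm_sq]
          rw [← mul_pow]
          refine pow_le_pow_left₀ (norm_nonneg _) ?_ 2
          exact ((fderiv ℝ (e i) x).le_opNorm _).trans
            (mul_le_mul_of_nonneg_right (hX1 x) (norm_nonneg _))
      refine h3.trans (mul_le_mul_of_nonneg_right ?_ (Real.sqrt_nonneg _))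
      linarith
    · have h1 : ∑ b ∈ s, dirf (e i) (e b) * z b = dirf (e i) (fs e s z) := by
        rw [dirf_comm, dirf_fs he s z (csc1 (he i))]
        refine Finset.sum_congr rfl fun b _ => ?_
        rw [dirf_comm (e b)]
        ring
      rw [h1, dirf_lapl (he i) (csc1 (fs_cs he s z)), abs_neg, ← hfs s z]
      refine (csq (lapl_cont (he i)) (lapl_supp (he i)) (csc (fs_cs he s z))
        (fs_cs he s z).cpt).trans ?_
      refine mul_le_mul_of_nonneg_right ?_ (Real.sqrt_nonneg _)
      linarith

end Pool.Agent.Y317.SK
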