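import Pool.Agent.Y317.SK.Lin

/-!
# Project SK: S_INT
-/

open Set Filter Topology MeasureTheory Metric

set_option autoImplicit false

namespace Pool.Agent.Y317.SK

open Pool.Agent.Y5 (E3)
open Pool.Agent.Y303.SK

theorem int2 {g1 g2 : E3 → ℝ} (h1 : Integrable g1) (h2 : Integrable g2) (c1 c2 : ℝ) :
    ∫ x, (c1 * g1 x + c2 * g2 x) = c1 * (∫ x, g1 x) + c2 * (∫ x, g2 x) := by
  rw [integral_add (h1.const_mul c1) (h2.const_mul c2), integral_const_mul, integral_const_mul]

theorem int4 {g1 g2 g3 g4 : E3 → ℝ} (h1 : Integrable g1) (h2 : Integrable g2)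
    (h3 : Integrable g3) (h4 : Integrable g4) (c1 c2 c3 c4 : ℝ) :
    ∫ x, (c1 * g1 x + c2 * g2 x + (c3 * g3 x + c4 * g4 x)) =
      c1 * (∫ x, g1 x) + c2 * (∫ x, g2 x) + (c3 * (∫ x, g3 x) + c4 * (∫ x, g4 x)) := by
  rw [integral_add (f := fun x => c1 * g1 x + c2 * g2 x) (g := fun x => c3 * g3 x + c4 * g4 x)
    ((h1.const_mul c1).add (h2.const_mul c2)) ((h3.const_mul c3).add (h4.const_mul c4)),
    int2 h1 h2, int2 h3 h4]

theorem int3 {g1 g2 g3 : E3 → ℝ} (h1 : Integrable g1) (h2 : Integrable g2)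
    (h3 : Integrable g3) (c1 c2 c3 : ℝ) :
    ∫ x, (c1 * g1 x + c2 * g2 x + c3 * g3 x) =
      c1 * (∫ x, g1 x) + c2 * (∫ x, g2 x) + c3 * (∫ x, g3 x) := by
  rw [integral_add (f := fun x => c1 * g1 x + c2 * g2 x) (g := fun x => c3 * g3 x)
    ((h1.const_mul c1).add (h2.const_mul c2)) (h3.const_mul c3), int2 h1 h2, integral_const_mul]

/-- the local structure of a main mode -/
structure Loc (p : E3) (R A : ℝ) (U : Set E3) (K ψ : E3 → E3) : Prop where
  hK : CS univ K
  hψ : CS univ ψ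
  sup : U ⊆ ball p R
  K0 : ∀ x, x ∉ U → K x = 0 ∧ fderiv ℝ K x = 0
  ψU : ∀ x ∈ U, ψ x = A • lin p x ∧ fderiv ℝ ψ x = A • Sm
  ψ0 : ∀ x, x ∉ ball p R → ψ x = 0 ∧ fderiv ℝ ψ x = 0

section
variable {p : E3} {R A : ℝ} {U : Set E3} {K ψ f f' : E3 → E3} {s θ s' θ' : ℝ}

theorem low_fd (hK : CS univ K) (hf : ∀ x ∈ ball p R, f x = s • lin p x + θ • K x) :
    ∀ x ∈ ball p R, fderiv ℝ f x = s • Sm + θ • fderiv ℝ K x := by
  intro x hx
  have h1 : f =ᶠ[𝓝 x] fun y => s • lin p y + θ • K y := by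
    filter_upwards [isOpen_ball.mem_nhds hx] with y hy using hf y hy
  rw [h1.fderiv_eq]
  have h2 : HasFDerivAt (fun y => s • lin p y + θ • K y) (s • Sm + θ • fderiv ℝ K x) x :=
    ((lin_hd p x).const_smul s).add (((csd hK) x).hasFDerivAt.const_smul θ)
  exact h2.fderiv

theorem main (hL : Loc p R A U K ψ) (hf : ∀ x ∈ ball p R, f x = s • lin p x + θ • K x)
    (hf' : ∀ x ∈ ball p R, f' x = s' • lin p x + θ' • K x) :
    ipr f ψ = 0 ∧ dirf f ψ = 0 ∧
    adv f f' ψ = -(θ * θ' * A * ∫ x, inner ℝ (Sm (K x)) (K x)) ∧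
    adv ψ f f' = 0 ∧ adv ψ f ψ = s * ∫ x, inner ℝ (Sm (ψ x)) (ψ x) := by
  have hD := low_fd hL.hK hf
  have hD' := low_fd hL.hK hf'
  have hψc := csc hL.hψ
  have hψf := csf hL.hψ
  have hKc := csc hL.hK
  have hKf := csf hL.hK
  have hlc := lin_c p
  have hψs := hL.hψ.cpt
  have hKs := hL.hK.cpt
  -- integrable functions
  have i1 : Integrable (fun x => inner ℝ (lin p x) (ψ x)) :=
    intg (K := tsupport ψ) (by fun_prop) hψs fun x hx => by rw [cs0 hx]; simp
  have i2 : Integrable (fun x => inner ℝ (lin p x) (K x)) :=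
    intg (K := tsupport K) (by fun_prop) hKs fun x hx => by rw [cs0 hx]; simp
  have i3 : Integrable (fun x => inner ℝ (Sm (lin p x)) (ψ x)) :=
    intg (K := tsupport ψ) (by fun_prop) hψs fun x hx => by rw [cs0 hx]; simp
  have i4 : Integrable (fun x => inner ℝ (Sm (lin p x)) (K x)) :=
    intg (K := tsupport K) (by fun_prop) hKs fun x hx => by rw [cs0 hx]; simp
  have i5 : Integrable (fun x => inner ℝ (fderiv ℝ K x (lin p x)) (lin p x)) :=
    intg (K := tsupport K) (by fun_prop) hKs fun x hx => by rw [cs0f hx]; simp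
  have i6 : Integrable (fun x => inner ℝ (fderiv ℝ K x (K x)) (lin p x)) :=
    intg (K := tsupport K) (by fun_prop) hKs fun x hx => by rw [cs0f hx]; simp
  have i7 : Integrable (fun x => inner ℝ (fderiv ℝ K x (lin p x)) (K x)) :=
    intg (K := tsupport K) (by fun_prop) hKs fun x hx => by rw [cs0f hx]; simp
  have i8 : Integrable (fun x => inner ℝ (Sm (ψ x)) (ψ x)) :=
    intg (K := tsupport ψ) (by fun_prop) hψs fun x hx => by rw [cs0 hx]; simp
  have i9 : Integrable (fun x => ∑ i : Fin 3, inner ℝ (Sm (cv i)) (fderiv ℝ ψ x (cv i))) :=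
    intg (K := tsupport ψ) (by fun_prop) hψs fun x hx => by rw [cs0f hx]; simp
  have i10 : Integrable (fun x => ∑ i : Fin 3, inner ℝ (Sm (cv i)) (fderiv ℝ K x (cv i))) :=
    intg (K := tsupport K) (by fun_prop) hKs fun x hx => by rw [cs0f hx]; simp
  refine ⟨?_, ?_, ?_, ?_, ?_⟩
  · have h1 : ∀ x, inner ℝ (f x) (ψ x) =
        s * inner ℝ (lin p x) (ψ x) + (θ * A) * inner ℝ (lin p x) (K x) := by
      intro x
      by_cases hb : x ∈ ball p R
      · rw [hf x hb]
        by_cases hU : x ∈ U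
        · rw [(hL.ψU x hU).1, inner_add_left, real_inner_smul_left, real_inner_smul_left,
            real_inner_smul_right, real_inner_smul_right, real_inner_comm (lin p x) (K x)]
          ring
        · rw [(hL.K0 x hU).1]
          simp [real_inner_smul_left]
      · rw [(hL.ψ0 x hb).1, (hL.K0 x fun h => hb (hL.sup h)).1]
        simp
    unfold ipr
    simp only [h1]
    rw [int2 i1 i2, lin_orth p hL.hψ, lin_orth p hL.hK]
    simp
  · have h1 : ∀ x, ∑ i : Fin 3, inner ℝ (fderiv ℝ f x (cv i)) (fderiv ℝ ψ x (cv i)) =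
        s * ∑ i : Fin 3, inner ℝ (Sm (cv i)) (fderiv ℝ ψ x (cv i)) +
        (θ * A) * ∑ i : Fin 3, inner ℝ (Sm (cv i)) (fderiv ℝ K x (cv i)) := by
      intro x
      rw [Finset.mul_sum, Finset.mul_sum, ← Finset.sum_add_distrib]
      refine Finset.sum_congr rfl fun i _ => ?_
      by_cases hb : x ∈ ball p R
      · rw [hD x hb]
        by_cases hU : x ∈ U
        · rw [(hL.ψU x hU).2]
          simp only [add_apply, smul_apply, inner_add_left, real_inner_smul_left,
            real_inner_smul_right]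
          rw [real_inner_comm (Sm (cv i)) (fderiv ℝ K x (cv i))]
          ring
        · rw [(hL.K0 x hU).2]
          simp [real_inner_smul_left]
      · rw [(hL.ψ0 x hb).2, (hL.K0 x fun h => hb (hL.sup h)).2]
        simp
    unfold dirf
    simp only [h1]
    rw [int2 i9 i10, A6 hL.hψ, A6 hL.hK]
    simp
  · have h1 : ∀ x, inner ℝ (fderiv ℝ f' x (f x)) (ψ x) =
        (s * s') * inner ℝ (Sm (lin p x)) (ψ x) +
        (s' * θ * A) * inner ℝ (Sm (lin p x)) (K x) +
        ((θ' * s * A) * inner ℝ (fderiv ℝ K x (lin p x)) (lin p x) +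
        (θ * θ' * A) * inner ℝ (fderiv ℝ K x (K x)) (lin p x)) := by
      intro x
      by_cases hb : x ∈ ball p R
      · rw [hf x hb, hD' x hb]
        by_cases hU : x ∈ U
        · rw [(hL.ψU x hU).1]
          have e1 : inner ℝ (Sm (K x)) (lin p x) = inner ℝ (Sm (lin p x)) (K x) := by
            rw [Sm_symm, real_inner_comm]
          simp only [add_apply, smul_apply, map_add, map_smul, inner_add_left,
            real_inner_smul_left, real_inner_smul_right, e1]
          ring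
        · rw [(hL.K0 x hU).1, (hL.K0 x hU).2]
          simp [real_inner_smul_left]
          ring
      · rw [(hL.ψ0 x hb).1, (hL.K0 x fun h => hb (hL.sup h)).1,
          (hL.K0 x fun h => hb (hL.sup h)).2]
        simp
    unfold adv
    simp only [h1]
    rw [int4 i3 i4 i5 i6, lin_orth2 p hL.hψ, lin_orth2 p hL.hK, A3 p hL.hK, A4 p hL.hK]
    ring
  · have h1 : ∀ x, inner ℝ (fderiv ℝ f x (ψ x)) (f' x) =
        (s * s') * inner ℝ (Sm (lin p x)) (ψ x) +
        (s * θ' * A) * inner ℝ (Sm (lin p x)) (K x) +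
        ((θ * s' * A) * inner ℝ (fderiv ℝ K x (lin p x)) (lin p x) +
        (θ * θ' * A) * inner ℝ (fderiv ℝ K x (lin p x)) (K x)) := by
      intro x
      by_cases hb : x ∈ ball p R
      · rw [hf' x hb, hD x hb]
        by_cases hU : x ∈ U
        · rw [(hL.ψU x hU).1]
          simp only [add_apply, smul_apply, map_smul, inner_add_left, inner_add_right,
            real_inner_smul_left, real_inner_smul_right]
          ring
        · rw [(hL.K0 x hU).1, (hL.K0 x hU).2]
          have e1 : inner ℝ (Sm (ψ x)) (lin p x) = inner ℝ (Sm (lin p x)) (ψ x) := by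
            rw [Sm_symm, real_inner_comm]
          simp [real_inner_smul_left, real_inner_smul_right, e1]
          ring
      · rw [(hL.ψ0 x hb).1, (hL.K0 x fun h => hb (hL.sup h)).1,
          (hL.K0 x fun h => hb (hL.sup h)).2]
        simp
    unfold adv
    simp only [h1]
    rw [int4 i3 i4 i5 i7, lin_orth2 p hL.hψ, lin_orth2 p hL.hK, A3 p hL.hK, A5 p hL.hK]
    ring
  · have h1 : ∀ x, inner ℝ (fderiv ℝ f x (ψ x)) (ψ x) =
        s * inner ℝ (Sm (ψ x)) (ψ x) +
        (θ * A ^ 2) * inner ℝ (fderiv ℝ K x (lin p x)) (lin p x) := by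
      intro x
      by_cases hb : x ∈ ball p R
      · rw [hD x hb]
        by_cases hU : x ∈ U
        · rw [(hL.ψU x hU).1]
          simp only [add_apply, smul_apply, map_smul, inner_add_left,
            real_inner_smul_left, real_inner_smul_right]
          ring
        · rw [(hL.K0 x hU).2]
          simp [real_inner_smul_left]
      · rw [(hL.ψ0 x hb).1, (hL.K0 x fun h => hb (hL.sup h)).2]
        simp
    unfold adv
    simp only [h1]
    rw [int2 i8 i5, A3 p hL.hK]
    ring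

end

theorem t_INT (hm : S_MM) (_hf : S_FORM) : S_INT := by
  intro p Ψ H a κ h q q' G δ r α ε lm L hPk hPar m f f' s θ s' θ' hf hf' hLf hLf'
  obtain ⟨hm1, _, _, _, _⟩ := hm p Ψ H a κ h q q' G δ r α ε lm L hPk hPar
  have hR : 0 < r m := hPar.r0 m
  have hR' : 0 < r (m + 1) := hPar.r0 (m + 1)
  have hst : r (m + 1) ≤ q' * r m := hPar.rstep m
  have hq0 : 0 < q' := hPk.q'0
  have hqq : q' < q := hPk.qq
  have hq1 : q < 1 := hPk.q1
  have hq' : 0 < q := hq0.trans hqq
  have hHu : CS univ H := csu hPk.Hcs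
  have hΨu : CS univ Ψ := csu hPk.Ψcs
  have hK : CS univ (sc p (r m) H) := sc_cs p hR hHu
  have hP : CS univ (sc p (r m) Ψ) := sc_cs p hR hΨu
  have hK' : CS univ (sc p (r (m + 1)) H) := sc_cs p hR' hHu
  have hψ : CS univ (psi p Ψ H r α ε m) := csu (hm1 m)
  -- supports
  have hnr : ∀ x, ‖(r m)⁻¹ • (x - p)‖ = (r m)⁻¹ * dist x p := by
    intro x
    rw [norm_smul, Real.norm_eq_abs, abs_of_pos (inv_pos.2 hR), dist_eq_norm]
  have hnr' : ∀ x, ‖(r (m + 1))⁻¹ • (x - p)‖ = (r (m + 1))⁻¹ * dist x p := by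
    intro x
    rw [norm_smul, Real.norm_eq_abs, abs_of_pos (inv_pos.2 hR'), dist_eq_norm]
  let U : Set E3 := ball p (q * r m) \ closedBall p (q' * r m)
  have hUo : IsOpen U := isOpen_ball.sdiff isClosed_closedBall
  have hUb : U ⊆ ball p (r m) := fun x hx => by
    have h1 : dist x p < q * r m := hx.1
    exact mem_ball.2 (by nlinarith)
  have hH0 : ∀ y, y ∉ ball (0 : E3) q \ closedBall 0 q' → H y = 0 ∧ fderiv ℝ H y = 0 := by
    intro y hy
    have h1 : y ∉ tsupport H := fun h => hy (hPk.Hcs.supp h)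
    exact ⟨cs0 h1, cs0f h1⟩
  have hK0 : ∀ x, x ∉ U → sc p (r m) H x = 0 ∧ fderiv ℝ (sc p (r m) H) x = 0 := by
    intro x hx
    have h1 : (r m)⁻¹ • (x - p) ∉ ball (0 : E3) q \ closedBall 0 q' := by
      rintro ⟨h2, h3⟩
      rw [mem_ball_zero_iff, hnr] at h2
      rw [mem_closedBall_zero_iff, hnr, not_le] at h3
      refine hx ⟨?_, ?_⟩
      · rw [mem_ball]
        rw [inv_mul_lt_iff₀ hR] at h2
        linarith
      · rw [mem_closedBall, not_le]
        rw [lt_inv_mul_iff₀ hR] at h3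
        linarith
    obtain ⟨h2, h3⟩ := hH0 _ h1
    constructor
    · unfold sc
      rw [h2, smul_zero]
    · have h4 := (sc_hd p (r := r m) (csd hHu) x).fderiv
      rw [h3] at h4
      refine h4.trans ?_
      refine ContinuousLinearMap.ext fun v => ?_
      change (r m * √(r m))⁻¹ • ((r m)⁻¹ • (0 : E3)) = 0
      rw [smul_zero, smul_zero]
  have hPlin : ∀ x ∈ ball p (q * r m), sc p (r m) Ψ x =
      ((r m * √(r m))⁻¹ * (a * (r m)⁻¹)) • lin p x := by
    intro x hx
    unfold sc lin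
    rw [hPk.Ψlin _ (by rw [mem_ball_zero_iff, hnr, inv_mul_lt_iff₀ hR]; rw [mem_ball] at hx; linarith),
      map_smul, smul_smul, smul_smul, mul_assoc]
  have hK'0 : ∀ x, x ∉ ball p (q * r (m + 1)) → sc p (r (m + 1)) H x = 0 := by
    intro x hx
    unfold sc
    rw [(hH0 _ _).1, smul_zero]
    rintro ⟨h2, _⟩
    rw [mem_ball_zero_iff, hnr', inv_mul_lt_iff₀ hR'] at h2
    exact hx (mem_ball.2 (by linarith))
  have hA : α m * ((r m * √(r m))⁻¹ * (a * (r m)⁻¹)) = Am a r α m := by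
    unfold Am
    have h1 : √(r m) ≠ 0 := (Real.sqrt_pos.2 hR).ne'
    field_simp
  have hψU : ∀ x ∈ U, psi p Ψ H r α ε m x = Am a r α m • lin p x := by
    intro x hx
    unfold psi
    have h1 : x ∉ ball p (q * r (m + 1)) := by
      intro h
      have h2 : dist x p < q * r (m + 1) := h
      have h3 : q' * r m < dist x p := not_le.1 fun h4 => hx.2 (mem_closedBall.2 h4)
      nlinarith
    rw [hPlin x hx.1, hK'0 x h1, smul_zero, add_zero, smul_smul, hA]
  have hψU' : ∀ x ∈ U, fderiv ℝ (psi p Ψ H r α ε m) x = Am a r α m • Sm := by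
    intro x hx
    have h1 : psi p Ψ H r α ε m =ᶠ[𝓝 x] fun y => Am a r α m • lin p y := by
      filter_upwards [hUo.mem_nhds hx] with y hy using hψU y hy
    rw [h1.fderiv_eq]
    have h2 : HasFDerivAt (fun y => Am a r α m • lin p y) (Am a r α m • Sm) x :=
      (lin_hd p x).const_smul (Am a r α m)
    exact h2.fderiv
  have hψ0 : ∀ x, x ∉ ball p (r m) → psi p Ψ H r α ε m x = 0 ∧
      fderiv ℝ (psi p Ψ H r α ε m) x = 0 := by
    intro x hx
    have h1 : x ∉ tsupport (psi p Ψ H r α ε m) := fun h2 => hx ((hm1 m).supp h2)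
    exact ⟨cs0 h1, cs0f h1⟩
  have hL : Loc p (r m) (Am a r α m) U (sc p (r m) H) (psi p Ψ H r α ε m) :=
    ⟨hK, hψ, hUb, hK0, fun x hx => ⟨hψU x hx, hψU' x hx⟩, hψ0⟩
  obtain ⟨r1, r2, r3, r4, r5⟩ := main hL hLf hLf'
  refine ⟨r1, r2, ?_, r4, ?_⟩
  · rw [r3, sc_int p hR, hPk.Hh]
    ring
  · rw [r5]
    have hψc := csc hψ
    have hPc := csc hP
    have hKc' := csc hK'
    have hlc := lin_c p
    have i1 : Integrable (fun x => inner ℝ (Sm (sc p (r m) Ψ x)) (sc p (r m) Ψ x)) :=
      intg (K := tsupport (sc p (r m) Ψ)) (by fun_prop) hP.cpt fun x hx => by rw [cs0 hx]; simp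
    have i2 : Integrable (fun x => inner ℝ (Sm (sc p (r (m + 1)) H x)) (sc p (r (m + 1)) H x)) :=
      intg (K := tsupport (sc p (r (m + 1)) H)) (by fun_prop) hK'.cpt
        fun x hx => by rw [cs0 hx]; simp
    have i3 : Integrable (fun x => inner ℝ (Sm (lin p x)) (sc p (r (m + 1)) H x)) :=
      intg (K := tsupport (sc p (r (m + 1)) H)) (by fun_prop) hK'.cpt
        fun x hx => by rw [cs0 hx]; simp
    have h1 : ∀ x, inner ℝ (Sm (psi p Ψ H r α ε m x)) (psi p Ψ H r α ε m x) =
        α m ^ 2 * inner ℝ (Sm (sc p (r m) Ψ x)) (sc p (r m) Ψ x) +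
        ε m ^ 2 * inner ℝ (Sm (sc p (r (m + 1)) H x)) (sc p (r (m + 1)) H x) +
        (2 * α m * ε m * ((r m * √(r m))⁻¹ * (a * (r m)⁻¹))) *
          inner ℝ (Sm (lin p x)) (sc p (r (m + 1)) H x) := by
      intro x
      unfold psi
      have e1 : inner ℝ (Sm (sc p (r m) Ψ x)) (sc p (r (m + 1)) H x) =
          ((r m * √(r m))⁻¹ * (a * (r m)⁻¹)) *
            inner ℝ (Sm (lin p x)) (sc p (r (m + 1)) H x) := by
        by_cases hx : x ∈ ball p (q * r (m + 1))
        · rw [hPlin x, map_smul, real_inner_smul_left]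
          rw [mem_ball] at hx ⊢
          nlinarith
        · rw [hK'0 x hx]
          simp
      have e2 : inner ℝ (Sm (sc p (r (m + 1)) H x)) (sc p (r m) Ψ x) =
          inner ℝ (Sm (sc p (r m) Ψ x)) (sc p (r (m + 1)) H x) := by
        rw [Sm_symm, real_inner_comm]
      simp only [map_add, map_smul, inner_add_left, inner_add_right, real_inner_smul_left,
        real_inner_smul_right, e2, e1]
      ring
    simp only [h1]
    rw [int3 i1 i2 i3, sc_int p hR, sc_int p hR', hPk.Ψk, hPk.Hh,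
      lin_orth2 p hK']
    ring

end Pool.Agent.Y317.SK
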