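import Pool.Agent.Y317.SK.Form

/-!
# Project SK: the linear field, rescaling
-/

open Set Filter Topology MeasureTheory Metric

set_option autoImplicit false

namespace Pool.Agent.Y317.SK

open Pool.Agent.Y5 (E3)
open Pool.Agent.Y303.SK

/-- divergence-free fields are orthogonal to gradients of compactly supported functions -/
theorem div0' {u : E3 → E3} {g : E3 → ℝ} (hu : ContDiff ℝ 1 u) (hd : ∀ x, dvg u x = 0)
    (hg : ContDiff ℝ 1 g) (hgs : HasCompactSupport g) :
    ∫ x, fderiv ℝ g x (u x) = 0 := by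
  have hgf : Continuous (fderiv ℝ g) := hg.continuous_fderiv (by simp)
  have hgc : Continuous g := hg.continuous
  have huc := hu.continuous
  have huf := cs1 hu
  have hg0 : ∀ x, x ∉ tsupport g → g x = 0 := fun x hx => image_eq_zero_of_notMem_tsupport hx
  have hg1 : ∀ x, x ∉ tsupport g → fderiv ℝ g x = 0 := fun x hx =>
    image_eq_zero_of_notMem_tsupport fun h2 => hx (tsupport_fderiv_subset ℝ h2)
  have h1 : ∀ x, fderiv ℝ g x (u x) = ∑ i : Fin 3, u x i * fderiv ℝ g x (cv i) := by
    intro x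
    conv_lhs => rw [exp_cv (u x)]
    rw [map_sum]
    simp
  have hi : ∀ i : Fin 3, Integrable (fun x => u x i * fderiv ℝ g x (cv i)) := by
    intro i
    refine intg (K := tsupport g) (by fun_prop) hgs fun x hx => ?_
    rw [hg1 x hx]; simp
  have hi' : ∀ i : Fin 3, Integrable (fun x => (fderiv ℝ u x (cv i)) i * g x) := by
    intro i
    refine intg (K := tsupport g) (by fun_prop) hgs fun x hx => ?_
    rw [hg0 x hx]; simp
  have hud : Differentiable ℝ u := hu.differentiable (by simp)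
  have h2 : ∀ i : Fin 3, ∫ x, u x i * fderiv ℝ g x (cv i) =
      - ∫ x, (fderiv ℝ u x (cv i)) i * g x := by
    intro i
    have h3 := integral_mul_fderiv_eq_neg_fderiv_mul_of_integrable (μ := (volume : Measure E3))
      (f := fun x => u x i) (g := g) (v := cv i)
      (by simpa only [fd_coord hud] using hi' i) (hi i) ?_ ?_ ?_
    · simpa only [fd_coord hud] using h3
    · refine intg (K := tsupport g) (by fun_prop) hgs fun x hx => ?_
      rw [hg0 x hx]; simp
    · intro x _
      exact ((EuclideanSpace.proj i : E3 →L[ℝ] ℝ).differentiableAt).comp x (hud x)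
    · intro x _
      exact (hg.differentiable (by simp)) x
  calc ∫ x, fderiv ℝ g x (u x) = ∑ i : Fin 3, ∫ x, u x i * fderiv ℝ g x (cv i) := by
        simp only [h1]
        exact integral_finsetSum _ fun i _ => hi i
    _ = - ∫ x, dvg u x * g x := by
        simp only [h2]
        rw [Finset.sum_neg_distrib, ← integral_finsetSum _ fun i _ => hi' i]
        congr 2
        funext x
        rw [dvg, Finset.sum_mul]
    _ = 0 := by
        simp [hd]

theorem Sm_0 (x : E3) : Sm x 0 = x 0 := rfl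
theorem Sm_1 (x : E3) : Sm x 1 = x 1 := rfl
theorem Sm_2 (x : E3) : Sm x 2 = -2 * x 2 := rfl

theorem Sm_symm (x y : E3) : inner ℝ (Sm x) y = inner ℝ x (Sm y) := by
  simp only [PiLp.inner_apply, Fin.sum_univ_three, Sm_0, Sm_1, Sm_2, RCLike.inner_apply,
    conj_trivial]
  ring

/-- the linear field -/
noncomputable def lin (p x : E3) : E3 := Sm (x - p)

theorem lin_hd (p x : E3) : HasFDerivAt (lin p) Sm x := by
  have h1 : HasFDerivAt (fun y : E3 => y - p) (ContinuousLinearMap.id ℝ E3) x :=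
    (hasFDerivAt_id x).sub_const p
  have h2 := (Sm.hasFDerivAt (x := x - p)).comp x h1
  rw [ContinuousLinearMap.comp_id] at h2
  exact h2

theorem lin_fd (p x : E3) : fderiv ℝ (lin p) x = Sm := (lin_hd p x).fderiv

theorem lin_cd (p : E3) {n : WithTop ℕ∞} : ContDiff ℝ n (lin p) :=
  Sm.contDiff.comp (contDiff_id.sub contDiff_const)

theorem lin_c (p : E3) : Continuous (lin p) := (lin_cd p (n := 1)).continuous

theorem lin_div (p x : E3) : dvg (lin p) x = 0 := by
  unfold dvg
  rw [lin_fd, Fin.sum_univ_three, Sm_0, Sm_1, Sm_2]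
  simp
  norm_num

/-- A1 -/
theorem lin_orth (p : E3) {u : E3 → E3} (hu : CS univ u) : ∫ x, inner ℝ (lin p x) (u x) = 0 := by
  have hg : ContDiff ℝ 1 (fun x : E3 => (1 / 2 : ℝ) * inner ℝ (lin p x) (x - p)) :=
    contDiff_const.mul ((lin_cd p).inner ℝ (contDiff_id.sub contDiff_const))
  have h1 := div0 hu hg
  have h2 : ∀ x, fderiv ℝ (fun x : E3 => (1 / 2 : ℝ) * inner ℝ (lin p x) (x - p)) x (u x) =
      inner ℝ (lin p x) (u x) := by
    intro x
    have h3 : DifferentiableAt ℝ (lin p) x := (lin_hd p x).differentiableAt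
    have h4 : DifferentiableAt ℝ (fun x : E3 => x - p) x := by fun_prop
    have h5 : fderiv ℝ (fun x : E3 => x - p) x = ContinuousLinearMap.id ℝ E3 := by
      rw [fderiv_sub_const]
      exact fderiv_fun_id
    rw [fderiv_const_mul (h3.inner ℝ h4), smul_apply,
      fderiv_inner_apply ℝ h3 h4, lin_fd, h5, smul_eq_mul, ContinuousLinearMap.id_apply,
      Sm_symm]
    change (1 / 2 : ℝ) * (inner ℝ (lin p x) (u x) + inner ℝ (u x) (lin p x)) = _
    rw [real_inner_comm (lin p x) (u x)]
    ring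
  simpa only [h2] using h1

/-- A2 -/
theorem lin_orth2 (p : E3) {u : E3 → E3} (hu : CS univ u) :
    ∫ x, inner ℝ (Sm (lin p x)) (u x) = 0 := by
  have hg : ContDiff ℝ 1 (fun x : E3 => (1 / 2 : ℝ) * inner ℝ (lin p x) (lin p x)) :=
    contDiff_const.mul ((lin_cd p).inner ℝ (lin_cd p))
  have h1 := div0 hu hg
  have h2 : ∀ x, fderiv ℝ (fun x : E3 => (1 / 2 : ℝ) * inner ℝ (lin p x) (lin p x)) x (u x) =
      inner ℝ (Sm (lin p x)) (u x) := by
    intro x
    have h3 : DifferentiableAt ℝ (lin p) x := (lin_hd p x).differentiableAt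
    rw [fderiv_const_mul (h3.inner ℝ h3), smul_apply,
      fderiv_inner_apply ℝ h3 h3, lin_fd, smul_eq_mul, Sm_symm, Sm_symm,
      real_inner_comm (Sm (lin p x)) (u x), Sm_symm]
    ring
  simpa only [h2] using h1

section K
variable {K : E3 → E3} (p : E3)

/-- A3 -/
theorem A3 (hK : CS univ K) : ∫ x, inner ℝ (fderiv ℝ K x (lin p x)) (lin p x) = 0 := by
  have hKc := csc hK
  have hKf := csf hK
  have hl := lin_c p
  have hg : ContDiff ℝ 1 (fun x : E3 => inner ℝ (K x) (lin p x)) :=
    (csc1 hK).inner ℝ (lin_cd p)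
  have hgs : HasCompactSupport (fun x : E3 => inner ℝ (K x) (lin p x)) := by
    refine HasCompactSupport.intro (K := tsupport K) hK.cpt fun x hx => ?_
    rw [cs0 hx]; simp
  have h1 := div0' (lin_cd p) (lin_div p) hg hgs
  have h2 : ∀ x, fderiv ℝ (fun x : E3 => inner ℝ (K x) (lin p x)) x (lin p x) =
      inner ℝ (Sm (lin p x)) (K x) + inner ℝ (fderiv ℝ K x (lin p x)) (lin p x) := by
    intro x
    rw [fderiv_inner_apply ℝ (csd hK x) (lin_hd p x).differentiableAt, lin_fd,
      real_inner_comm (Sm (lin p x)) (K x)]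
  simp only [h2] at h1
  rw [integral_add] at h1
  · rw [lin_orth2 p hK, zero_add] at h1
    exact h1
  · refine intg (K := tsupport K) (by fun_prop) hK.cpt fun x hx => ?_
    rw [cs0 hx]; simp
  · refine intg (K := tsupport K) (by fun_prop) hK.cpt fun x hx => ?_
    rw [cs0f hx]; simp

/-- A4 -/
theorem A4 (hK : CS univ K) : ∫ x, inner ℝ (fderiv ℝ K x (K x)) (lin p x) =
    - ∫ x, inner ℝ (Sm (K x)) (K x) := by
  have h1 := adv_anti hK (csc1 hK) (lin_cd p)
  unfold adv at h1
  simpa only [lin_fd] using h1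

/-- A5 -/
theorem A5 (hK : CS univ K) : ∫ x, inner ℝ (fderiv ℝ K x (lin p x)) (K x) = 0 := by
  have hg : ContDiff ℝ 1 (fun x : E3 => inner ℝ (K x) (K x)) :=
    (csc1 hK).inner ℝ (csc1 hK)
  have hgs : HasCompactSupport (fun x : E3 => inner ℝ (K x) (K x)) := by
    refine HasCompactSupport.intro (K := tsupport K) hK.cpt fun x hx => ?_
    rw [cs0 hx]; simp
  have h1 := div0' (lin_cd p) (lin_div p) hg hgs
  have h2 : ∀ x, fderiv ℝ (fun x : E3 => inner ℝ (K x) (K x)) x (lin p x) =
      2 * inner ℝ (fderiv ℝ K x (lin p x)) (K x) := by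
    intro x
    rw [fderiv_inner_apply ℝ (csd hK x) (csd hK x),
      real_inner_comm (fderiv ℝ K x (lin p x)) (K x)]
    ring
  simp only [h2] at h1
  rw [integral_const_mul] at h1
  linarith

/-- A6 -/
theorem A6 (hK : CS univ K) :
    ∫ x, ∑ i : Fin 3, inner ℝ (Sm (cv i)) (fderiv ℝ K x (cv i)) = 0 := by
  have hKf := csf hK
  rw [integral_finsetSum]
  · refine Finset.sum_eq_zero fun i _ => ?_
    have h1 : ∫ x, inner ℝ (Sm (cv i)) (fderiv ℝ K x (cv i)) =
        - ∫ x, inner ℝ (fderiv ℝ (fun _ : E3 => Sm (cv i)) x (cv i)) (K x) := by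
      refine integral_bilinear_fderiv_right_eq_neg_left_of_integrable
        (μ := (volume : Measure E3)) (f := fun _ : E3 => Sm (cv i)) (g := K) (v := cv i)
        (B := innerSL ℝ) ?_ ?_ ?_ ?_ ?_
      · simp
      · refine intg (K := tsupport K) (by fun_prop) hK.cpt fun x hx => ?_
        rw [cs0f hx]; simp
      · have := csc hK
        refine intg (K := tsupport K) (by fun_prop) hK.cpt fun x hx => ?_
        rw [cs0 hx]; simp
      · intro x _
        fun_prop
      · intro x _
        exact csd hK x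
    rw [h1]
    simp
  · intro i _
    refine intg (K := tsupport K) (by fun_prop) hK.cpt fun x hx => ?_
    rw [cs0f hx]; simp

end K

/-! ### rescaling -/

section scal
variable {F : E3 → E3} (p : E3) {r : ℝ}

theorem sc_hd (hF : Differentiable ℝ F) (x : E3) :
    HasFDerivAt (sc p r F) ((r * √r)⁻¹ • (r⁻¹ • fderiv ℝ F (r⁻¹ • (x - p)))) x := by
  have h1 : HasFDerivAt (fun y : E3 => r⁻¹ • (y - p)) (r⁻¹ • ContinuousLinearMap.id ℝ E3) x :=
    ((hasFDerivAt_id x).sub_const p).const_smul r⁻¹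
  have h2 := ((hF (r⁻¹ • (x - p))).hasFDerivAt.comp x h1).const_smul (r * √r)⁻¹
  have h3 : (fderiv ℝ F (r⁻¹ • (x - p))).comp (r⁻¹ • ContinuousLinearMap.id ℝ E3) =
      r⁻¹ • fderiv ℝ F (r⁻¹ • (x - p)) := by
    ext v
    simp
  rw [h3] at h2
  exact h2

theorem sc_cs (hr : 0 < r) (hF : CS univ F) : CS univ (sc p r F) := by
  refine ⟨?_, ?_, subset_univ _, ?_⟩
  · unfold sc
    exact (hF.smooth.comp ((contDiff_id.sub contDiff_const).const_smul r⁻¹)).const_smul _
  · refine HasCompactSupport.intro (K := (fun y => p + r • y) '' tsupport F)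
      (hF.cpt.image (by fun_prop)) fun x hx => ?_
    have h1 : r⁻¹ • (x - p) ∉ tsupport F := by
      intro h
      refine hx ⟨_, h, ?_⟩
      simp only
      rw [smul_inv_smul₀ hr.ne', add_sub_cancel]
    unfold sc
    rw [cs0 h1, smul_zero]
  · intro x
    have h1 : dvg (sc p r F) x = (r * √r)⁻¹ * (r⁻¹ * dvg F (r⁻¹ • (x - p))) := by
      unfold dvg
      rw [(sc_hd p (csd hF) x).fderiv]
      simp [Fin.sum_univ_three]
      ring
    rw [h1, hF.dv]
    simp

theorem sc_int (hr : 0 < r) : ∫ x, inner ℝ (Sm (sc p r F x)) (sc p r F x) =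
    ∫ x, inner ℝ (Sm (F x)) (F x) := by
  have h1 : ∀ x, inner ℝ (Sm (sc p r F x)) (sc p r F x) =
      (r ^ 3)⁻¹ * inner ℝ (Sm (F (r⁻¹ • (x - p)))) (F (r⁻¹ • (x - p))) := by
    intro x
    unfold sc
    rw [map_smul, real_inner_smul_left, real_inner_smul_right, ← mul_assoc]
    congr 1
    have h2 : √r * √r = r := Real.mul_self_sqrt hr.le
    rw [← mul_inv]
    congr 1
    calc r * √r * (r * √r) = r * r * (√r * √r) := by ring
      _ = r ^ 3 := by rw [h2]; ring
  simp only [h1]
  rw [integral_const_mul]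
  have h3 : ∫ x, inner ℝ (Sm (F (r⁻¹ • (x - p)))) (F (r⁻¹ • (x - p))) =
      ∫ x, inner ℝ (Sm (F (r⁻¹ • x))) (F (r⁻¹ • x)) :=
    integral_sub_right_eq_self (fun x : E3 => inner ℝ (Sm (F (r⁻¹ • x))) (F (r⁻¹ • x))) p
  have h4 := Measure.integral_comp_inv_smul (volume : Measure E3)
    (fun x : E3 => inner ℝ (Sm (F x)) (F x)) r
  rw [h3, h4, finrank_euclideanSpace, Fintype.card_fin, abs_of_pos (pow_pos hr 3), smul_eq_mul,
    ← mul_assoc, inv_mul_cancel₀ (pow_pos hr 3).ne', one_mul]

end scal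

end Pool.Agent.Y317.SK
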