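import Pool.Agent.Y303.SK.Stm

/-!
# Project SK: integration by parts, Cauchy-Schwarz
-/

open Set Filter Topology MeasureTheory Metric

set_option autoImplicit false

namespace Pool.Agent.Y317.SK

open Pool.Agent.Y5 (E3)
open Pool.Agent.Y303.SK

theorem csu {Ω : Set E3} {v : E3 → E3} (h : CS Ω v) : CS univ v :=
  ⟨h.smooth, h.cpt, subset_univ _, h.dv⟩

section basic
variable {Ω : Set E3} {v : E3 → E3}

theorem csd (h : CS Ω v) : Differentiable ℝ v := h.smooth.differentiable (by simp)

theorem csc (h : CS Ω v) : Continuous v := h.smooth.continuous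

theorem csc1 (h : CS Ω v) : ContDiff ℝ 1 v := h.smooth.of_le (by exact_mod_cast le_top)

theorem cs1 (h : ContDiff ℝ 1 v) : Continuous (fderiv ℝ v) := h.continuous_fderiv (by simp)

theorem csf (h : CS Ω v) : Continuous (fderiv ℝ v) := cs1 (csc1 h)

theorem cs0 {v : E3 → E3} {x : E3} (h : x ∉ tsupport v) : v x = 0 := image_eq_zero_of_notMem_tsupport h

theorem cs0f {v : E3 → E3} {x : E3} (h : x ∉ tsupport v) : fderiv ℝ v x = 0 := by
  have h1 : x ∉ tsupport (fderiv ℝ v) := fun h2 => h (tsupport_fderiv_subset ℝ h2)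
  exact image_eq_zero_of_notMem_tsupport h1

end basic

/-- continuous functions which vanish outside of a compact set are integrable -/
theorem intg {F : Type*} [NormedAddCommGroup F] {f : E3 → F} {K : Set E3}
    (hf : Continuous f) (hK : IsCompact K) (h : ∀ x, x ∉ K → f x = 0) : Integrable f :=
  hf.integrable_of_hasCompactSupport (HasCompactSupport.intro hK h)

theorem exp_cv (v : E3) : v = ∑ i : Fin 3, v i • cv i := by
  ext j
  fin_cases j <;> simp [Fin.sum_univ_three]

theorem fd_coord {u : E3 → E3} (hu : Differentiable ℝ u) (i : Fin 3) (x v : E3) :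
    fderiv ℝ (fun y => u y i) x v = (fderiv ℝ u x v) i := by
  have h1 : HasFDerivAt (fun y => u y i)
      ((EuclideanSpace.proj i : E3 →L[ℝ] ℝ).comp (fderiv ℝ u x)) x :=
    (EuclideanSpace.proj i : E3 →L[ℝ] ℝ).hasFDerivAt.comp x (hu x).hasFDerivAt
  rw [h1.fderiv]
  rfl

/-- divergence-free fields are orthogonal to gradients -/
theorem div0 {u : E3 → E3} {g : E3 → ℝ} (hu : CS univ u) (hg : ContDiff ℝ 1 g) :
    ∫ x, fderiv ℝ g x (u x) = 0 := by
  have hgf : Continuous (fderiv ℝ g) := hg.continuous_fderiv (by simp)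
  have hgc : Continuous g := hg.continuous
  have huc := csc hu
  have huf := csf hu
  have h1 : ∀ x, fderiv ℝ g x (u x) = ∑ i : Fin 3, u x i * fderiv ℝ g x (cv i) := by
    intro x
    conv_lhs => rw [exp_cv (u x)]
    rw [map_sum]
    simp
  have hi : ∀ i : Fin 3, Integrable (fun x => u x i * fderiv ℝ g x (cv i)) := by
    intro i
    refine intg (K := tsupport u) (by fun_prop) hu.cpt fun x hx => ?_
    rw [cs0 hx]; simp
  have hi' : ∀ i : Fin 3, Integrable (fun x => (fderiv ℝ u x (cv i)) i * g x) := by
    intro i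
    refine intg (K := tsupport u) (by fun_prop) hu.cpt fun x hx => ?_
    rw [cs0f hx]; simp
  have h2 : ∀ i : Fin 3, ∫ x, u x i * fderiv ℝ g x (cv i) =
      - ∫ x, (fderiv ℝ u x (cv i)) i * g x := by
    intro i
    have h3 := integral_mul_fderiv_eq_neg_fderiv_mul_of_integrable (μ := (volume : Measure E3))
      (f := fun x => u x i) (g := g) (v := cv i)
      (by simpa only [fd_coord (csd hu)] using hi' i) (hi i) ?_ ?_ ?_
    · simpa only [fd_coord (csd hu)] using h3
    · refine intg (K := tsupport u) (by fun_prop) hu.cpt fun x hx => ?_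
      rw [cs0 hx]; simp
    · intro x _
      exact ((EuclideanSpace.proj i : E3 →L[ℝ] ℝ).differentiableAt).comp x (csd hu x)
    · intro x _
      exact (hg.differentiable (by simp)) x
  calc ∫ x, fderiv ℝ g x (u x) = ∑ i : Fin 3, ∫ x, u x i * fderiv ℝ g x (cv i) := by
        simp only [h1]
        exact integral_finsetSum _ fun i _ => hi i
    _ = - ∫ x, dvg u x * g x := by
        simp only [h2]
        rw [Finset.sum_neg_distrib, ← integral_finsetSum _ fun i _ => hi' i]
        congr 2
        funext x
        rw [dvg, Finset.sum_mul]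
    _ = 0 := by
        simp [hu.dv]

/-- antisymmetry of the trilinear form -/
theorem adv_anti {u v w : E3 → E3} (hu : CS univ u) (hv : ContDiff ℝ 1 v)
    (hw : ContDiff ℝ 1 w) : adv u v w = -adv u w v := by
  have huc := csc hu
  have hvf := cs1 hv
  have hwf := cs1 hw
  have hvc := hv.continuous
  have hwc := hw.continuous
  have hg : ContDiff ℝ 1 (fun x => inner ℝ (v x) (w x)) := hv.inner ℝ hw
  have h0 := div0 hu hg
  have h1 : ∀ x, fderiv ℝ (fun x => inner ℝ (v x) (w x)) x (u x) =
      inner ℝ (fderiv ℝ v x (u x)) (w x) + inner ℝ (fderiv ℝ w x (u x)) (v x) := by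
    intro x
    rw [fderiv_inner_apply ℝ (hv.differentiable (by simp) x) (hw.differentiable (by simp) x),
      add_comm, real_inner_comm (v x)]
  simp only [h1] at h0
  rw [integral_add] at h0
  · unfold adv
    linarith
  · refine intg (K := tsupport u) (by fun_prop) hu.cpt fun x hx => ?_
    rw [cs0 hx]; simp
  · refine intg (K := tsupport u) (by fun_prop) hu.cpt fun x hx => ?_
    rw [cs0 hx]; simp

/-- Cauchy-Schwarz -/
theorem csq {A B : E3 → E3} (hA : Continuous A) (hA' : HasCompactSupport A) (hB : Continuous B)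
    (hB' : HasCompactSupport B) : |ipr A B| ≤ √(ipr A A) * √(ipr B B) := by
  have hiAA : Integrable (fun x => inner ℝ (A x) (A x)) := by
    refine intg (K := tsupport A) (by fun_prop) hA' fun x hx => ?_
    rw [cs0 hx]; simp
  have hiBB : Integrable (fun x => inner ℝ (B x) (B x)) := by
    refine intg (K := tsupport B) (by fun_prop) hB' fun x hx => ?_
    rw [cs0 hx]; simp
  have hiAB : Integrable (fun x => inner ℝ (A x) (B x)) := by
    refine intg (K := tsupport A) (by fun_prop) hA' fun x hx => ?_
    rw [cs0 hx]; simp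
  have h0 : 0 ≤ ipr A A := integral_nonneg fun x => real_inner_self_nonneg
  have h1 : ∀ t : ℝ, 0 ≤ ipr B B * (t * t) + 2 * ipr A B * t + ipr A A := by
    intro t
    have h2 : 0 ≤ ∫ x, inner ℝ (A x + t • B x) (A x + t • B x) :=
      integral_nonneg fun x => real_inner_self_nonneg
    have h3 : ∀ x, inner ℝ (A x + t • B x) (A x + t • B x) =
        inner ℝ (A x) (A x) + (2 * t) * inner ℝ (A x) (B x) + (t * t) * inner ℝ (B x) (B x) := by
      intro x
      rw [inner_add_left, inner_add_right, inner_add_right, real_inner_smul_left,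
        real_inner_smul_right, real_inner_smul_left, real_inner_smul_right,
        real_inner_comm (A x) (B x)]
      ring
    simp only [h3] at h2
    have h5 : ∫ x, (inner ℝ (A x) (A x) + (2 * t) * inner ℝ (A x) (B x) +
        (t * t) * inner ℝ (B x) (B x)) = ipr A A + 2 * t * ipr A B + t * t * ipr B B := by
      rw [integral_add (f := fun x => inner ℝ (A x) (A x) + (2 * t) * inner ℝ (A x) (B x))
        (g := fun x => (t * t) * inner ℝ (B x) (B x)) (hiAA.add (hiAB.const_mul _))
        (hiBB.const_mul _), integral_add hiAA (hiAB.const_mul _), integral_const_mul,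
        integral_const_mul]
      rfl
    rw [h5] at h2
    linarith
  have h4 := discrim_le_zero h1
  unfold discrim at h4
  rw [← Real.sqrt_mul h0]
  refine Real.abs_le_sqrt ?_
  nlinarith

/-! ### finite sums -/

section sums
variable {I : Type} {e : I → E3 → E3}

/-- a finite linear combination -/
noncomputable def fs (e : I → E3 → E3) (s : Finset I) (z : I → ℝ) (x : E3) : E3 :=
  ∑ a ∈ s, z a • e a x

theorem fs_diff (he : ∀ a, CS univ (e a)) (s : Finset I) (z : I → ℝ) (x v : E3) :
    fderiv ℝ (fs e s z) x v = ∑ a ∈ s, z a • fderiv ℝ (e a) x v := by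
  have h1 : HasFDerivAt (fs e s z) (∑ a ∈ s, z a • fderiv ℝ (e a) x) x := by
    unfold fs
    exact HasFDerivAt.fun_sum fun a _ => ((csd (he a) x).hasFDerivAt).const_smul (z a)
  rw [h1.fderiv]
  simp

theorem fs_cs (he : ∀ a, CS univ (e a)) (s : Finset I) (z : I → ℝ) : CS univ (fs e s z) := by
  refine ⟨?_, ?_, subset_univ _, ?_⟩
  · unfold fs
    exact ContDiff.sum fun a _ => (he a).smooth.const_smul (z a)
  · refine HasCompactSupport.intro (K := ⋃ a ∈ s, tsupport (e a))
      (s.isCompact_biUnion fun a _ => (he a).cpt) fun x hx => ?_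
    simp only [mem_iUnion, not_exists] at hx
    unfold fs
    refine Finset.sum_eq_zero fun a ha => ?_
    rw [cs0 (hx a ha), smul_zero]
  · intro x
    unfold dvg
    simp only [fs_diff he]
    have h1 : ∀ i : Fin 3, (∑ a ∈ s, z a • fderiv ℝ (e a) x (cv i)) i =
        ∑ a ∈ s, z a * (fderiv ℝ (e a) x (cv i)) i := by
      intro i
      simp
    simp only [h1]
    rw [Finset.sum_comm]
    refine Finset.sum_eq_zero fun a _ => ?_
    rw [← Finset.mul_sum]
    have := (he a).dv x
    unfold dvg at this
    rw [this, mul_zero]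

theorem ipr_fs (he : ∀ a, CS univ (e a)) (s : Finset I) (z : I → ℝ) {f : E3 → E3}
    (hf : Continuous f) : ipr (fs e s z) f = ∑ a ∈ s, z a * ipr (e a) f := by
  unfold ipr fs
  simp only [sum_inner, real_inner_smul_left]
  rw [integral_finsetSum]
  · simp only [integral_const_mul]
  · intro a _
    have := csc (he a)
    refine (intg (K := tsupport (e a)) (by fun_prop) (he a).cpt fun x hx => ?_).const_mul _
    rw [cs0 hx]; simp

theorem ipr_comm (v w : E3 → E3) : ipr v w = ipr w v := by
  unfold ipr
  simp only [real_inner_comm]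

theorem dirf_comm (v w : E3 → E3) : dirf v w = dirf w v := by
  unfold dirf
  simp only [real_inner_comm]

theorem dirf_fs (he : ∀ a, CS univ (e a)) (s : Finset I) (z : I → ℝ) {f : E3 → E3}
    (hf : ContDiff ℝ 1 f) : dirf (fs e s z) f = ∑ a ∈ s, z a * dirf (e a) f := by
  unfold dirf
  simp only [fs_diff he, sum_inner, real_inner_smul_left]
  have h1 : ∀ x, ∑ i : Fin 3, ∑ a ∈ s, z a * inner ℝ (fderiv ℝ (e a) x (cv i))
      (fderiv ℝ f x (cv i)) = ∑ a ∈ s, z a * ∑ i : Fin 3, inner ℝ (fderiv ℝ (e a) x (cv i))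
      (fderiv ℝ f x (cv i)) := by
    intro x
    rw [Finset.sum_comm]
    simp only [Finset.mul_sum]
  simp only [h1]
  rw [integral_finsetSum]
  · simp only [integral_const_mul]
  · intro a _
    have h2 := csf (he a)
    have h3 := cs1 hf
    refine (intg (K := tsupport (e a)) (by fun_prop) (he a).cpt fun x hx => ?_).const_mul _
    rw [cs0f hx]; simp

theorem adv_fs (he : ∀ a, CS univ (e a)) (s : Finset I) (z w : I → ℝ) {f : E3 → E3}
    (hf : Continuous f) :
    adv (fs e s z) (fs e s w) f = ∑ a ∈ s, ∑ b ∈ s, adv (e a) (e b) f * z a * w b := by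
  unfold adv
  have h1 : ∀ x, inner ℝ (fderiv ℝ (fs e s w) x (fs e s z x)) (f x) =
      ∑ a ∈ s, ∑ b ∈ s, inner ℝ (fderiv ℝ (e b) x (e a x)) (f x) * z a * w b := by
    intro x
    rw [fs_diff he]
    unfold fs
    simp only [map_sum, map_smul, sum_inner, real_inner_smul_left, Finset.smul_sum]
    rw [Finset.sum_comm]
    refine Finset.sum_congr rfl fun a _ => Finset.sum_congr rfl fun b _ => ?_
    ring
  simp only [h1]
  have hi : ∀ a b, Integrable (fun x => inner ℝ (fderiv ℝ (e b) x (e a x)) (f x)) := by
    intro a b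
    have h2 := csf (he b)
    have h3 := csc (he a)
    refine intg (K := tsupport (e a)) (by fun_prop) (he a).cpt fun x hx => ?_
    rw [cs0 hx]; simp
  rw [integral_finsetSum _ fun a _ => integrable_finsetSum _ fun b _ =>
    ((hi a b).mul_const _).mul_const _]
  refine Finset.sum_congr rfl fun a _ => ?_
  rw [integral_finsetSum _ fun b _ => ((hi a b).mul_const _).mul_const _]
  refine Finset.sum_congr rfl fun b _ => ?_
  rw [integral_mul_const, integral_mul_const]

end sums

end Pool.Agent.Y317.SK
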